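import Pool.Agent.PST.StmtsU
import Pool.Agent.Helper92_PSS.TRA
import Pool.Agent.Helper85_PSS.LKX
import Pool.Agent.Helper75_PSS.SPF
import Pool.Agent.Helper84_PSS.RFE
import Pool.Agent.Helper63_PSS.FUN
import Pool.Agent.Helper80_PSS.ZRT

/-!
# PST, row NZD (306): the relative traces in the ring of the deformation are not zero divisors
-/

set_option autoImplicit false

open scoped BigOperators TensorProduct PowerSeries

noncomputable section

namespace Pool.Agent.PST.U.H8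

open Pool.Agent.PFD.D2 (Cdv FibG)
open Pool.Agent.PFD.D2b (FrR)
open Pool.Agent.PSS
open Pool.Agent.PSS.Dm (cst)

/-- row NZD -/
theorem nzd (hCRT : CrtStmt) : NzdStmt := by
  intro R K V A B κ κ' Ω _ _ _ _ _ _ _ _ _ _ _ _ _ _ _ W _ α lam x y b c C D P m Λ x' y' w u
    hT hm hRF hu a ha
  obtain ⟨⟨D', hD'⟩, -, -⟩ := Pool.Agent.PSS.H92.tra K V B (ia C.i α) W P m hT
  obtain ⟨ψ, Λ', hψ, hψw, hΛ', hRF'⟩ := Pool.Agent.PSS.H85.lkx Pool.Agent.PSS.H75.rmp
    Pool.Agent.PSS.H63.funs Pool.Agent.PSS.H84.rfe R K V A B κ κ' Ω W α lam x y b c C D D' Λ x' y' (fun n a₁ a₂ => by rw [hD']; exact hm n a₁ a₂) hRF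
  have : FiniteDimensional K B := by
    classical
    refine ⟨⟨Finset.univ.image (fun ω => C.i (b ω)), eq_top_iff.2 fun a _ => ?_⟩⟩
    rw [← C.frK.2.2 a]
    refine Submodule.sum_mem _ fun ω _ => Submodule.smul_mem _ _ (Submodule.subset_span ?_)
    rw [Finset.coe_image]
    exact ⟨ω, Finset.mem_coe.2 (Finset.mem_univ ω), rfl⟩
  obtain ⟨T, iT, iAT, Φ, j, N, N', hΦ, hΦs, hjs, hNc, hNN, hN⟩ := hCRT K V B κ κ' W (ia C.i α)
    C.lamK (fun t => C.i (x t)) (fun t => C.i (y t)) P m D' Λ' (fun t => ψ (x' t))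
    (fun t => ψ (y' t)) hT hD' C.rfK hRF'
  -- the image of the trace
  have hr : rt (fun t => ψ (x' t)) (fun t => ψ (y' t)) (D'.w w) = ψ (rt x' y' (D.w w)) := by
    rw [rt, rt, map_sum]
    refine Finset.sum_congr rfl fun k _ => ?_
    rw [map_mul, map_mul, hψw]
  have hr0 : rt (fun t => C.i (x t)) (fun t => C.i (y t)) (ia C.i α w) =
      C.i (rt x y (α w)) := by
    rw [rt, rt, map_sum]
    refine Finset.sum_congr rfl fun k _ => ?_
    rw [map_mul, map_mul, ia_apply]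
  have h1 := hN w
  rw [hr, hr0] at h1
  have hidx : (W.index : K) ≠ 0 := by
    rw [Nat.cast_ne_zero]
    exact Subgroup.FiniteIndex.index_ne_zero
  -- a left inverse of Φ (ψ r)
  have h2 : ((PowerSeries.C ((W.index : K)⁻¹) : PowerSeries K) • (j (C.i u) * N)) *
      Φ (ψ (rt x' y' (D.w w))) = 1 := by
    rw [smul_mul_assoc, mul_assoc, h1, mul_smul_comm, ← map_mul, ← map_mul, hu, map_one,
      map_one, ← Nat.cast_smul_eq_nsmul (PowerSeries K), smul_smul]
    have h3 : (PowerSeries.C ((W.index : K)⁻¹) : PowerSeries K) * ((W.index : ℕ) : PowerSeries K)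
        = 1 := by
      rw [← map_natCast (PowerSeries.C (R := K)), ← map_mul, inv_mul_cancel₀ hidx, map_one]
    rw [h3, one_smul]
  obtain ⟨s, hs⟩ := hΦ.2 ((PowerSeries.C ((W.index : K)⁻¹) : PowerSeries K) • (j (C.i u) * N))
  have h4 : s * ψ (rt x' y' (D.w w)) = 1 := by
    apply hΦ.1
    rw [map_mul, hs, h2, map_one]
  -- the trace is central
  have hcen : a * rt x' y' (D.w w) = rt x' y' (D.w w) * a := by
    refine Pool.Agent.PSS.S0.H80.zrt (PowerSeries R) W D.R κ' D.w Λ x' y' hRF (D.w w) ?_ a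
    intro g _
    show D.w g * (D.w w * D.w g⁻¹) = D.w w
    rw [← map_mul, ← map_mul]
    congr 1
    rw [mul_comm w, mul_inv_cancel_left]
  have h5 : ψ a = 0 := by
    have h6 : ψ (rt x' y' (D.w w)) * ψ a = 0 := by
      rw [← map_mul, ← hcen, ha, map_zero]
    calc ψ a = s * ψ (rt x' y' (D.w w)) * ψ a := by rw [h4, one_mul]
      _ = 0 := by rw [mul_assoc, h6, mul_zero]
  rw [← D.of_sq a, hψ, ← D'.of_zero] at h5
  have h7 := congrArg D'.sq h5
  rw [D'.sq_of, D'.sq_of] at h7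
  rw [← D.of_sq a, ← D.of_zero]
  congr 1
  funext n
  have h8 := congrFun h7 n
  simp only [Pi.zero_apply] at h8 ⊢
  exact C.inj (h8.trans (map_zero C.i).symm)

end Pool.Agent.PST.U.H8
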