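import Pool.Agent.PST.StmtsDR

/-!
# PST, row GXU (191): the value of the regular derivation at `α u`
-/

set_option autoImplicit false

open scoped BigOperators

noncomputable section

namespace Pool.Agent.PST.H8

open Pool.Agent.PFD.D2b (FrR)
open Pool.Agent.PSS
open Pool.Agent.PSS.S2 (PrD Nh Cn CV)

/-- row GXU -/
theorem gxu : GxuStmt := by
  intro F V E A K Ω _ _ _ _ _ _ _ _ _ φ α x y b c la χ H e X hfr hadd hwt hH u
  have hNh : ∀ (κ : Ω → F) (a : A), Nh κ b c a = ∑ ω, c ω a • (κ ω • b ω) := by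
    intro κ a
    simp [Nh, LinearMap.sum_apply]
  have hbw : ∀ a : A, bw F α (u, 1) a = α u * a := by
    intro a
    show α u * (a * α (1 : V)⁻¹) = α u * a
    rw [inv_one, map_one, mul_one]
  have hla1 : la 1 = 0 := by
    have := hadd 1 1
    rw [mul_one] at this
    linear_combination -this
  have hN : ∀ a : A, Nh H b c (α u * a) = α u * Nh H b c a +
      la u • (α u * Nh (fun ω => χ (e ω)⁻¹) b c a) := by
    intro a
    rw [hNh, hNh, hNh, Finset.mul_sum, Finset.mul_sum, Finset.smul_sum,
      ← Finset.sum_add_distrib]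
    rw [← Equiv.sum_comp (MulAction.toPerm ((u, 1) : V × V))]
    refine Finset.sum_congr rfl fun ω _ => ?_
    rw [MulAction.toPerm_apply]
    have h1 : c (((u, 1) : V × V) • ω) (α u * a) = c ω a := by
      have := hfr.2.1 (u, 1) ω a
      rwa [hbw] at this
    have h2 : b (((u, 1) : V × V) • ω) = α u * b ω := by
      rw [hfr.1, hbw]
    have h3 : H (((u, 1) : V × V) • ω) = H ω + χ (e ω)⁻¹ * la u := by
      rw [hH, hla1, sub_zero, hwt]
    rw [h1, h2, h3, add_smul, smul_add]
    congr 1
    · rw [mul_smul_comm, mul_smul_comm]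
    · rw [mul_smul_comm, mul_smul_comm, smul_comm (la u) (c ω a), smul_smul (la u), mul_comm (la u)]
  rw [gx_apply]
  have h4 : ∀ k, (Nh H b c (α u * x k) - α u * Nh H b c (x k)) * (X * y k) =
      la u • (α u * (Nh (fun ω => χ (e ω)⁻¹) b c (x k) * (X * y k))) := by
    intro k
    rw [hN, add_sub_cancel_left, smul_mul_assoc, mul_assoc]
  rw [Finset.sum_congr rfl fun k _ => h4 k, ← Finset.smul_sum, ← Finset.mul_sum]

end Pool.Agent.PST.H8
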