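import Pool.Agent.PST.StmtsDR

/-!
# PST, row NSM (203): the norm identity
-/

set_option autoImplicit false

open scoped BigOperators

noncomputable section

namespace Pool.Agent.PST.H8

/-- row NSM -/
theorem nsm : NsmStmt := by
  intro A _ v z z' n h1 _ hv1 hvn
  have h3 : ∀ i : ℕ, z * z' ^ (i + 1) = z' ^ i := by
    intro i
    rw [pow_succ', ← mul_assoc, h1, one_mul]
  have h5 : ∀ i : ℕ, z ^ i * z' ^ i = 1 := by
    intro i
    induction i with
    | zero => simp
    | succ i ih => rw [pow_succ z, mul_assoc, h3, ih]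
  have key : ∀ i : ℕ, (z ^ i * v z - v (z ^ i * z) + v (z ^ i) * z) * z' ^ (i + 1) =
      z ^ i * (v z * z') * z' ^ i -
        (v (z ^ (i + 1)) * z' ^ (i + 1) - v (z ^ i) * z' ^ i) := by
    intro i
    have e1 : v (z ^ i) * z * z' ^ (i + 1) = v (z ^ i) * z' ^ i := by
      rw [mul_assoc, h3]
    have e2 : z ^ i * v z * z' ^ (i + 1) = z ^ i * (v z * z') * z' ^ i := by
      rw [pow_succ']
      simp only [mul_assoc]
    rw [add_mul, sub_mul, e1, e2, ← pow_succ]
    abel
  rw [Finset.sum_congr rfl fun i _ => key i, Finset.sum_sub_distrib,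
    Finset.sum_range_sub (fun i => v (z ^ i) * z' ^ i) n]
  have e3 : v (z ^ n) * z' ^ n = 0 := by
    rw [hvn, mul_assoc, h5, mul_one, hv1]
  rw [e3]
  simp [hv1]

end Pool.Agent.PST.H8
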